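import Pool.Agent.W202.AH.Final

/-!
Assume the Riemann hypothesis.  Blocks of consecutive normalised spacings of the zeta zeros do not
follow patterns of low discrepancy modulo `s`, for any `s > 2/3`.

With `s = 1` and patterns with values in `{0, 1/2}` this concerns the Alternative Hypothesis: the
sequence of parities of `2 d_j` would have to be as irregular as a random one, in the sense that
for a positive proportion of the `j` the signs `(-1)^(2 d_j + … + 2 d_{j+i-1})`, `i = 1, 2, …`, have
discrepancy at least `κ √L` on some window of length at most `L` near `j`.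

Idea of the proof.  Put `θ = 1/s < 3/2` and `z_n = e(θ y_n)`, `y_n` the normalised ordinates.  If
for almost all `n` the sums of at most `L` consecutive `z_j`, `j` near `n`, are within `κ √L` of a
linear function, then the mean square of `∑ z_n e(β y_n)` over `|β - 2/L| ≤ 1/L` is at most a small
multiple of `1/L` times the length: this follows from a decomposition of `z` into a slowly varying
part, a small part and a telescoping part (Plancherel's theorem for the telescoping part, positive
definiteness of the kernel and Montgomery's theorem near the frequency `0` for the slowly varying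
part).  But by Montgomery's theorem (`θ < 1`), or by the lower bound `3/2 - α` for the form factor on
`(1, 3/2)`, it is at least a constant times `1/L` times the length.
-/

open Filter

namespace Pool.Agent.Results.MP_f0209c_nt.LocalPatterns

/-- multiplicity of `s` as a zero of the Riemann zeta function (order of vanishing at `s`) -/
noncomputable def zmult (s : ℂ) : ℕ := analyticOrderNatAt riemannZeta s

/-- the number of nontrivial zeros of `ζ` with ordinate in `(0, t]`, with multiplicity -/
noncomputable def NZ (t : ℝ) : ℕ :=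
  ∑ᶠ s ∈ {s : ℂ | riemannZeta s = 0 ∧ 0 < s.re ∧ s.re < 1 ∧ 0 < s.im ∧ s.im ≤ t}, zmult s

/-- for `j ≥ 1`: the `j`-th positive ordinate `γ j` of a nontrivial zero of `ζ`, the ordinates being
listed in nondecreasing order and repeated according to multiplicity -/
noncomputable def γ (j : ℕ) : ℝ := sInf {t : ℝ | j ≤ NZ t}

/-- the normalised spacings `d_j = γ_{j+1} log γ_{j+1} / 2π - γ_j log γ_j / 2π` -/
noncomputable def d (j : ℕ) : ℝ :=
  (γ (j + 1) * Real.log (γ (j + 1)) - γ j * Real.log (γ j)) / (2 * Real.pi)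

/-- `e(x) = exp (2 π i x)` -/
noncomputable def e (x : ℝ) : ℂ := Complex.exp (((2 * Real.pi * x : ℝ) : ℂ) * Complex.I)

/-- The pattern `a_0, a_1, …, a_{B-1}` has discrepancy at most `D` modulo `s` on the windows of
length at most `L`: for some complex number `c` the sums of `l ≤ L` consecutive terms of the
sequence `e((a_0 + … + a_{m-1}) / s)`, `m ≤ B`, are within `D` of `l c`. -/
def LowDisc (s D : ℝ) (L B : ℕ) (a : ℕ → ℝ) : Prop :=
  ∃ c : ℂ, ∀ m l : ℕ, m + l ≤ B → l ≤ L →
    ‖∑ i ∈ Finset.range l, e ((∑ j ∈ Finset.range (m + i), a j) / s) - l * c‖ ≤ D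

/-- On the Riemann hypothesis: for every `s > 2/3` there is `κ > 0` such that for every large `L`
there are `B` and `ε > 0` such that for all large `N` at least `ε N` of the indices `1 ≤ n ≤ N` have
the property that the block `d_n, …, d_{n+B-1}` does not follow modulo `s`, up to `ε`, any pattern
whose discrepancy modulo `s` on the windows of length at most `L` is at most `κ √L`. -/
theorem result (RH : RiemannHypothesis) (s : ℝ) (hs : 2 / 3 < s) :
    ∃ κ : ℝ, 0 < κ ∧ ∃ L₀ : ℕ, ∀ L : ℕ, L₀ ≤ L → ∃ B : ℕ, ∃ ε : ℝ, 0 < ε ∧ ∀ᶠ N : ℕ in atTop,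
      ε * N ≤ ({n : ℕ | 1 ≤ n ∧ n ≤ N ∧ ∀ a : ℕ → ℝ, LowDisc s (κ * Real.sqrt L) L B a →
        ∃ i : ℕ, i < B ∧ ∀ k : ℤ, ε ≤ |d (n + i) - (a i + s * k)|}.ncard : ℝ) := by
  have hs0 : 0 < s := by linarith
  have hθ : 1 / s < 3 / 2 := by
    rw [div_lt_iff₀ hs0]; linarith
  obtain ⟨κ, hκ, L0, h⟩ := W202.AH.patterns RH (1 / s) (by positivity) hθ
  refine ⟨κ, hκ, L0, fun L hL => ?_⟩
  obtain ⟨B, ε, hε, hN⟩ := h L hL
  refine ⟨B, ε, hε, ?_⟩
  filter_upwards [hN] with N hN
  refine hN.trans (le_of_eq ?_)
  congr 2
  ext n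
  simp only [Set.mem_setOf_eq]
  have hd : ∀ m : ℕ, SG.ord (m + 1) * Real.log (SG.ord (m + 1)) / (2 * Real.pi) -
      SG.ord m * Real.log (SG.ord m) / (2 * Real.pi) = d m := by
    intro m
    have : H177.Lat.del m = d m := rfl
    rw [← this]
    unfold H177.Lat.del
    ring
  have e1 : ∀ (a : ℕ → ℝ) (i : ℕ) (k : ℤ),
      SG.ord (n + i + 1) * Real.log (SG.ord (n + i + 1)) / (2 * Real.pi) -
      SG.ord (n + i) * Real.log (SG.ord (n + i)) / (2 * Real.pi) - a i - k / (1 / s) =
      d (n + i) - (a i + s * k) := by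
    intro a i k
    rw [hd, div_div_eq_mul_div, div_one]
    ring
  have e2 : ∀ a : ℕ → ℝ, (∃ c : ℂ, ∀ m l : ℕ, m + l ≤ B → l ≤ L →
      ‖∑ i ∈ Finset.range l, H177.Lat.ee (1 / s * ∑ j ∈ Finset.range (m + i), a j) - l * c‖ ≤
          κ * Real.sqrt L) ↔ LowDisc s (κ * Real.sqrt L) L B a := by
    intro a
    unfold LowDisc
    have e3 : ∀ x : ℝ, H177.Lat.ee (1 / s * x) = e (x / s) := by
      intro x
      unfold H177.Lat.ee e
      rw [one_div, inv_mul_eq_div]
    simp only [e3]
  simp only [e1, e2]

end Pool.Agent.Results.MP_f0209c_nt.LocalPatterns
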